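import Pool.Agent.W593.ZT.Stm

/-! Project ZT: stuck at once. -/

open scoped Classical

set_option autoImplicit false

namespace Pool.Agent.W585.ZT

open Pool.Agent.W593.ZT

theorem plb : S_PLB := by
  intro V G _ _ c hc S W H b1 hS hHW hb1 hnc hst
  obtain ⟨z0, a, h1, h2, h3, h4⟩ := hst
  refine ⟨a, z0, ?_⟩
  constructor
  · exact le_rfl
  · exact hS
  · exact subset_rfl
  · exact hHW
  · exact h1
  · exact h2
  · exact h3
  · exact h4
  · rw [Finset.sdiff_self, Finset.card_empty]
    have := min_le_left (nc c S W H).card (S.index - 1)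
    omega
  · intro X _
    refine ⟨∅, fun z => z, Finset.empty_subset _, le_rfl, by simp, ?_⟩
    intro r0 _ s hs
    refine ⟨0, ⟨fun _ => 0, by simp, by simp⟩, ?_⟩
    simpa using hs
  · exact Or.inl ⟨rfl, rfl, rfl⟩

end Pool.Agent.W585.ZT
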